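import Pool.Agent.Work.MP_db9399_kr_helper75.PROM1

/-!
# MP_db9399, KR, block PROM1, the theorem (helper75)
-/

set_option autoImplicit false
set_option linter.unusedSectionVars false

namespace Pool.Agent.Work.MP_db9399_kr.helper75

open Finset Classical
open Pool.Agent.Work.MP_db9399_all (nb)
open Pool.Agent.Work.MP_db9399_kr

universe u

theorem stmt_PROM1 : Stmt_PROM1.{u} := by
  intro δ π θ η' hδ hδ1 hπ hπ1 hθ hθ1 hη hη1
  refine ⟨1000, ?_⟩
  intro V _ k G d Y U Z E K0 C p cR hd hK0 hYd hYl hin hE hEK hUY hUc hcR hinj hC hYZ hEC hCd hEb hp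
  have hdr : (1000 : ℝ) ≤ d := by exact_mod_cast hd
  have hd0 : (0 : ℝ) ≤ d := by linarith
  have hθd : θ * d ≤ 1 / 100 * d := mul_le_mul_of_nonneg_right hθ1 hd0
  have hηd : η' * d ≤ 1 / 1000 * d := mul_le_mul_of_nonneg_right hη1 hd0
  have hδd : δ * d ≤ 1 / 1000 * d := mul_le_mul_of_nonneg_right hδ1 hd0
  have hπd : π * d ≤ 1 / 3 * d := mul_le_mul_of_nonneg_right hπ1.le hd0
  have hEu : ∀ v ∈ Y, ((E v).card : ℝ) ≤ θ * d := by
    intro v hv
    have h1 := hin v hv
    have h2 : ((E v).card : ℝ) + (nb G v ∩ Y).card = d := by exact_mod_cast hE v hv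
    linarith
  -- the number `a`
  obtain ⟨a, ha1, ha2⟩ : ∃ a : ℕ, (a : ℝ) ≤ 98 / 100 * d ∧ 98 / 100 * (d : ℝ) - 1 ≤ a := by
    refine ⟨⌊98 / 100 * (d : ℝ)⌋₊, Nat.floor_le (by positivity), ?_⟩
    have := Nat.lt_floor_add_one (98 / 100 * (d : ℝ))
    linarith
  have n1 : ∀ u ∈ Y, a + U.card ≤ (nb G u ∩ Y).card := by
    intro u hu
    have h1 := hin u hu
    have h2 : (a : ℝ) + U.card ≤ (nb G u ∩ Y).card := by linarith
    exact_mod_cast h2
  have n2 : ∀ v ∈ Y, ∀ j, 2 * ((E v).card + U.card + (C j).card + 2) ≤ a := by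
    intro v hv j
    have h1 := hEu v hv
    have h2 := hC j
    have h3 : 2 * (((E v).card : ℝ) + U.card + (C j).card + 2) ≤ a := by linarith
    exact_mod_cast h3
  have n3 : ∀ b i, 2 * ((Y.filter fun v => v ∉ Z ∧ b ∈ E v).card + (Y ∩ Z).card + U.card +
      U.card + (Y.filter fun v => p v = i).card) ≤ a := by
    intro b i
    have h1 := hEb b
    have h2 := hp i
    have h3 : (Y.card : ℝ) ≤ d := by exact_mod_cast hYd.le
    have h4 : 2 * (((Y.filter fun v => v ∉ Z ∧ b ∈ E v).card : ℝ) + (Y ∩ Z).card + U.card +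
      U.card + (Y.filter fun v => p v = i).card) ≤ a := by linarith
    exact_mod_cast h4
  -- colours
  haveI : Nonempty (Fin k) := by
    have : 0 < K0.card := by omega
    obtain ⟨b, -⟩ := card_pos.1 this
    exact ⟨b⟩
  set P : Finset (Fin k) := K0 \ U.image cR with hP
  set P0 : Finset (Fin k) := P.filter fun b => Even (Y.filter fun v => b ∉ E v).card with hP0
  have hPc : P.card + U.card = d + 2 := by
    have h1 : U.image cR ⊆ K0 := by
      intro b hb
      obtain ⟨u, hu, rfl⟩ := mem_image.1 hb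
      exact (hcR u hu).1
    have h2 := card_sdiff_add_card_eq_card h1
    rw [card_image_of_injOn hinj, hK0] at h2
    exact h2
  have hm' : ∀ m : V → Fin k, (∀ u ∈ U, m u ∈ P \ E u) →
      ∀ u ∈ U, m u ∈ K0 ∧ m u ∉ E u ∧ m u ≠ cR u := by
    intro m hm u hu
    have h1 := mem_sdiff.1 (hm u hu)
    have h2 := mem_sdiff.1 h1.1
    exact ⟨h2.1, h1.2, fun h => h2.2 (mem_image.2 ⟨u, hu, h.symm⟩)⟩
  have hfin : ∀ m : V → Fin k, (∀ u ∈ U, m u ∈ P \ E u) → Set.InjOn m (U : Set V) →
      (∀ s : V → V → Fin k, (∀ b ∈ P, (Odd (Mb G Y U E s b) ↔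
        Odd ((Y.filter fun v => b ∉ E v).card + (U.filter fun u => m u = b).card))) →
        U.card ≤ (P.filter fun b => Odd (Mb G Y U E s b)).card) →
      ∃ s : V → V → Fin k, (∀ u ∈ U, ∀ v ∈ U, G.Adj u v → s u v = s v u) ∧
        (∀ u ∈ U, ∀ v ∈ Y, G.Adj u v → s u v ∈ K0 ∧ s u v ∉ E u ∧ s u v ∉ E v ∧ s u v ≠ cR u ∧
          (v ∉ U → v ∉ Z → s u v ∉ C (p v))) ∧
        (∀ u ∈ U, Set.InjOn (s u) ((nb G u ∩ Y : Finset V) : Set V)) ∧
        (∀ v ∈ Y, v ∉ U → Set.InjOn (fun u => s u v) ((nb G v ∩ U : Finset V) : Set V)) ∧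
        U.card ≤ ((K0 \ U.image cR).filter (fun b => Odd ((Y \ U).filter (fun v => b ∉ E v ∧
          ∀ u ∈ U, G.Adj u v → s u v ≠ b)).card)).card := by
    intro m hm hmi hcnt
    obtain ⟨s, hs⟩ := steps hK0 hE hEK hUY hcR (hm' m hm) hCd n1 n2 n3
      (fun _ _ => Classical.arbitrary (Fin k))
    refine ⟨s, hs.sym, fun u hu v hv hadj => ⟨hs.K u hu v hv hadj, hs.E1 u hu v hv hadj,
      hs.E2 u hu v hv hadj, (hs.c1 u hu v hv hadj).1, hs.C3 u hu v hv hadj⟩, hs.inj, hs.inj2, ?_⟩
    exact hcnt s fun b hb => par hK0 hE hEK hUY hcR (hm' m hm) hs (mem_sdiff.1 hb).1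
      (mem_sdiff.1 hb).2
  by_cases hcase : (θ + 2 * η') * d + 2 ≤ (P0.card : ℝ)
  · -- case A
    obtain ⟨m, hm1, hm2⟩ := pick U (fun u => P0 \ E u) (by
      intro u hu
      have h1 := hEu u (hUY hu)
      have h2 : P0.card ≤ (P0 \ E u).card + (E u).card := by
        have := le_card_sdiff (E u) P0
        omega
      have h3 : (P0.card : ℝ) ≤ (P0 \ E u).card + (E u).card := by exact_mod_cast h2
      have h4 : 0 ≤ η' * d := by positivity
      have h5 : (U.card : ℝ) ≤ (P0 \ E u).card := by linarith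
      exact_mod_cast h5)
    refine hfin m (fun u hu => ?_) hm2 fun s hs => ?_
    · have h1 := mem_sdiff.1 (hm1 u hu)
      exact mem_sdiff.2 ⟨(mem_filter.1 h1.1).1, h1.2⟩
    · rw [← card_image_of_injOn hm2]
      refine card_le_card fun b hb => ?_
      obtain ⟨u, hu, rfl⟩ := mem_image.1 hb
      have h1 := (mem_filter.1 (mem_sdiff.1 (hm1 u hu)).1)
      rw [mem_filter]
      refine ⟨h1.1, (hs _ h1.1).2 ?_⟩
      have h2 : (U.filter fun u' => m u' = m u) = {u} := by
        ext u'
        rw [mem_filter, mem_singleton]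
        constructor
        · rintro ⟨h3, h4⟩
          exact hm2 (mem_coe.2 h3) (mem_coe.2 hu) h4
        · rintro rfl
          exact ⟨hu, rfl⟩
      rw [h2, card_singleton]
      exact h1.2.add_one
  · -- case B
    push Not at hcase
    obtain ⟨m, hm1, hm2⟩ := pick U (fun u => P \ E u) (by
      intro u hu
      have h1 := hEu u (hUY hu)
      have h2 : P.card ≤ (P \ E u).card + (E u).card := by
        have := le_card_sdiff (E u) P
        omega
      have h3 : (P.card : ℝ) ≤ (P \ E u).card + (E u).card := by exact_mod_cast h2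
      have h4 : (P.card : ℝ) + U.card = d + 2 := by exact_mod_cast hPc
      have h5 : (U.card : ℝ) ≤ (P \ E u).card := by linarith
      exact_mod_cast h5)
    refine hfin m hm1 hm2 fun s hs => ?_
    have h1 : P ⊆ ((P.filter fun b => Odd (Mb G Y U E s b)) ∪ P0) ∪ U.image m := by
      intro b hb
      rw [mem_union, mem_union]
      by_cases h2 : b ∈ U.image m
      · exact Or.inr h2
      · left
        by_cases h3 : Even (Y.filter fun v => b ∉ E v).card
        · exact Or.inr (mem_filter.2 ⟨hb, h3⟩)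
        · left
          rw [mem_filter]
          refine ⟨hb, (hs b hb).2 ?_⟩
          have h4 : (U.filter fun u => m u = b) = ∅ := by
            rw [filter_eq_empty_iff]
            intro u hu h5
            exact h2 (mem_image.2 ⟨u, hu, h5⟩)
          rw [h4, card_empty, add_zero]
          exact Nat.not_even_iff_odd.1 h3
    have h2 := (card_le_card h1).trans (card_union_le _ _)
    have h3 := card_union_le (P.filter fun b => Odd (Mb G Y U E s b)) P0
    have h4 : (U.image m).card ≤ U.card := card_image_le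
    have h5 : P.card ≤ (P.filter fun b => Odd (Mb G Y U E s b)).card + P0.card + U.card := by
      omega
    have h6 : (P.card : ℝ) ≤ (P.filter fun b => Odd (Mb G Y U E s b)).card + P0.card +
        U.card := by exact_mod_cast h5
    have h7 : (P.card : ℝ) + U.card = d + 2 := by exact_mod_cast hPc
    have h8 : (U.card : ℝ) ≤ (P.filter fun b => Odd (Mb G Y U E s b)).card := by linarith
    exact_mod_cast h8

end Pool.Agent.Work.MP_db9399_kr.helper75
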