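import Pool.Agent.Work.MP_db9399_kr_helper75.STAR

/-!
# MP_db9399, KR, block PROM1 (helper75): the inner edges at the reserved vertices of one spot
-/

set_option autoImplicit false
set_option linter.unusedSectionVars false

namespace Pool.Agent.Work.MP_db9399_kr.helper75

open Finset Classical
open Pool.Agent.Work.MP_db9399_all (nb)
open Pool.Agent.Work.MP_db9399_kr

universe u

theorem mem_nb' {V : Type u} [Fintype V] (G : SimpleGraph V) (v w : V) :
    w ∈ nb G v ↔ G.Adj v w := by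
  unfold nb
  simp

variable {V : Type u} [Fintype V] {k : ℕ}

/-- the edges at the vertices of `U'` are coloured -/
structure Stt (G : SimpleGraph V) (Y U Z : Finset V) (E : V → Finset (Fin k))
    (K0 : Finset (Fin k)) (C : Fin 3 → Finset (Fin k)) (p : V → Fin 3) (cR m : V → Fin k)
    (U' : Finset V) (s : V → V → Fin k) : Prop where
  sym : ∀ u ∈ U', ∀ v ∈ U', G.Adj u v → s u v = s v u
  K : ∀ u ∈ U', ∀ v ∈ Y, G.Adj u v → s u v ∈ K0
  E1 : ∀ u ∈ U', ∀ v ∈ Y, G.Adj u v → s u v ∉ E u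
  E2 : ∀ u ∈ U', ∀ v ∈ Y, G.Adj u v → s u v ∉ E v
  c1 : ∀ u ∈ U', ∀ v ∈ Y, G.Adj u v → s u v ≠ cR u ∧ s u v ≠ m u
  c2 : ∀ u ∈ U', ∀ v ∈ Y, G.Adj u v → v ∈ U → s u v ≠ cR v ∧ s u v ≠ m v
  C3 : ∀ u ∈ U', ∀ v ∈ Y, G.Adj u v → v ∉ U → v ∉ Z → s u v ∉ C (p v)
  inj : ∀ u ∈ U', Set.InjOn (s u) ((nb G u ∩ Y : Finset V) : Set V)
  inj2 : ∀ v ∈ Y, v ∉ U' → Set.InjOn (fun u => s u v) ((nb G v ∩ U' : Finset V) : Set V)

variable {G : SimpleGraph V} {Y U Z : Finset V} {E : V → Finset (Fin k)} {K0 : Finset (Fin k)}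
  {C : Fin 3 → Finset (Fin k)} {p : V → Fin 3} {cR m : V → Fin k} {U' : Finset V}
  {s : V → V → Fin k}

/-- one step -/
theorem step {d a : ℕ} (hK : K0.card = d + 2) (hE : ∀ v ∈ Y, (E v).card + (nb G v ∩ Y).card = d)
    (hEK : ∀ v ∈ Y, E v ⊆ K0) (hU : U ⊆ Y)
    (hcR : ∀ u ∈ U, cR u ∈ K0 ∧ cR u ∉ E u) (hm : ∀ u ∈ U, m u ∈ K0 ∧ m u ∉ E u ∧ m u ≠ cR u)
    (hC : ∀ i j, i ≠ j → Disjoint (C i) (C j))
    (n1 : ∀ u ∈ Y, a + U.card ≤ (nb G u ∩ Y).card)
    (n2 : ∀ v ∈ Y, ∀ j, 2 * ((E v).card + U.card + (C j).card + 2) ≤ a)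
    (n3 : ∀ b i, 2 * ((Y.filter fun v => v ∉ Z ∧ b ∈ E v).card + (Y ∩ Z).card + U.card + U.card +
      (Y.filter fun v => p v = i).card) ≤ a)
    (hU' : U' ⊆ U) {u : V} (hu : u ∈ U) (hu' : u ∉ U')
    (hs : Stt G Y U Z E K0 C p cR m U' s) :
    ∃ s' : V → V → Fin k, Stt G Y U Z E K0 C p cR m (insert u U') s' := by
  have huY := hU hu
  haveI : Nonempty (Fin k) := ⟨cR u⟩
  set us : Finset (Fin k) := (nb G u ∩ U').image fun x => s x u with hus
  have husc : us.card = (nb G u ∩ U').card := card_image_of_injOn (hs.inj2 u huY hu')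
  set A : Finset V := (nb G u ∩ Y) \ U' with hA
  set B : Finset (Fin k) := (((K0 \ E u).erase (cR u)).erase (m u)) \ us with hB
  have hAc : A.card + (nb G u ∩ U').card = (nb G u ∩ Y).card := by
    rw [hA]
    have h1 : (nb G u ∩ Y) ∩ U' = nb G u ∩ U' := by
      ext x
      rw [mem_inter, mem_inter, mem_inter]
      exact ⟨fun h => ⟨h.1.1, h.2⟩, fun h => ⟨⟨h.1, hU (hU' h.2)⟩, h.2⟩⟩
    rw [← h1]
    exact card_sdiff_add_card_inter _ _
  have hBc : B.card + us.card + 2 + (E u).card = d + 2 := by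
    have h1 : us ⊆ ((K0 \ E u).erase (cR u)).erase (m u) := by
      intro b hb
      obtain ⟨x, hx, rfl⟩ := mem_image.1 hb
      rw [mem_inter, mem_nb'] at hx
      have hadj := hx.1.symm
      rw [mem_erase, mem_erase, mem_sdiff]
      exact ⟨(hs.c2 x hx.2 u huY hadj hu).2, (hs.c2 x hx.2 u huY hadj hu).1,
        hs.K x hx.2 u huY hadj, hs.E2 x hx.2 u huY hadj⟩
    have h2 : m u ∈ (K0 \ E u).erase (cR u) := by
      rw [mem_erase, mem_sdiff]
      exact ⟨(hm u hu).2.2, (hm u hu).1, (hm u hu).2.1⟩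
    have h3 : cR u ∈ K0 \ E u := mem_sdiff.2 (hcR u hu)
    have h4 := card_sdiff_add_card_eq_card h1
    have h5 := card_erase_add_one h2
    have h6 := card_erase_add_one h3
    have h7 := card_sdiff_add_card_eq_card (hEK u huY)
    rw [← hB] at h4
    omega
  have hAB : A.card = B.card := by
    have := hE u huY
    omega
  have hUc : U'.card ≤ U.card := card_le_card hU'
  have haA : a ≤ A.card := by
    have h1 := n1 u huY
    have h2 : (nb G u ∩ U').card ≤ U'.card := card_le_card inter_subset_right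
    omega
  set F : V → Finset (Fin k) := fun v => E v ∪ ((nb G v ∩ U').image fun x => s x v) ∪
    (if v ∈ U then {cR v, m v} else if v ∈ Z then ∅ else C (p v)) with hF
  have hFc : ∀ v ∈ Y, 2 * (F v).card ≤ a := by
    intro v hv
    have h1 := n2 v hv (p v)
    have h2 : ((nb G v ∩ U').image fun x => s x v).card ≤ U'.card :=
      card_image_le.trans (card_le_card inter_subset_right)
    have h3 : (if v ∈ U then ({cR v, m v} : Finset (Fin k)) else if v ∈ Z then ∅ else
        C (p v)).card ≤ (C (p v)).card + 2 := by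
      split_ifs
      · exact card_le_two.trans (by omega)
      · rw [card_empty]
        omega
      · omega
    have h4 := (card_union_le (E v ∪ ((nb G v ∩ U').image fun x => s x v))
      (if v ∈ U then ({cR v, m v} : Finset (Fin k)) else if v ∈ Z then ∅ else C (p v)))
    have h5 := card_union_le (E v) ((nb G v ∩ U').image fun x => s x v)
    have h6 : (F v).card ≤ (E v).card + U.card + (C (p v)).card + 2 := by
      simp only [hF]
      omega
    omega
  obtain ⟨f, hf1, hf2⟩ := star A B (fun v => K0 \ F v) hAB (by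
    intro v hv
    have hvY : v ∈ Y := (mem_inter.1 (mem_sdiff.1 hv).1).2
    have h1 := hFc v hvY
    have h2 : B ⊆ (B ∩ (K0 \ F v)) ∪ F v := by
      intro b hb
      rw [mem_union, mem_inter]
      by_cases h : b ∈ F v
      · exact Or.inr h
      · left
        refine ⟨hb, mem_sdiff.2 ⟨?_, h⟩⟩
        rw [hB, mem_sdiff, mem_erase, mem_erase, mem_sdiff] at hb
        exact hb.1.2.2.1
    have h3 := (card_le_card h2).trans (card_union_le _ _)
    show B.card ≤ 2 * (B ∩ (K0 \ F v)).card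
    omega) (by
    intro b hb
    -- the third of `b`
    obtain ⟨i, hi⟩ : ∃ i, ∀ j, b ∈ C j → j = i := by
      by_cases h : ∃ j, b ∈ C j
      · obtain ⟨i, hi⟩ := h
        refine ⟨i, fun j hj => ?_⟩
        by_contra hne
        exact Finset.disjoint_left.1 (hC j i hne) hj hi
      · exact ⟨0, fun j hj => absurd ⟨j, hj⟩ h⟩
    have h1 := n3 b i
    have hbK : b ∈ K0 := by
      rw [hB, mem_sdiff, mem_erase, mem_erase, mem_sdiff] at hb
      exact hb.1.2.2.1
    set R : Finset V := U'.biUnion fun x => (nb G x ∩ Y).filter fun v => s x v = b with hR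
    have hRc : R.card ≤ U.card := by
      refine card_biUnion_le.trans ?_
      calc ∑ x ∈ U', ((nb G x ∩ Y).filter fun v => s x v = b).card ≤ ∑ x ∈ U', 1 := by
            refine sum_le_sum fun x hx => card_le_one.2 fun v hv w hw => ?_
            rw [mem_filter] at hv hw
            exact hs.inj x hx (mem_coe.2 hv.1) (mem_coe.2 hw.1) (by rw [hv.2, hw.2])
        _ = U'.card := by rw [sum_const, smul_eq_mul, mul_one]
        _ ≤ U.card := hUc
    have h2 : A ⊆ (A.filter fun v => b ∈ K0 \ F v) ∪ ((((Y.filter fun v => v ∉ Z ∧ b ∈ E v) ∪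
        (Y ∩ Z)) ∪ U) ∪ R ∪ (Y.filter fun v => p v = i)) := by
      intro v hv
      have hv' := hv
      rw [hA, mem_sdiff, mem_inter] at hv'
      obtain ⟨⟨-, hvY⟩, hvU'⟩ := hv'
      by_cases h3 : b ∈ F v
      · rw [mem_union]
        right
        rw [mem_union, mem_union, mem_union, mem_union]
        by_cases hvZ : v ∈ Z
        · exact Or.inl (Or.inl (Or.inl (Or.inr (mem_inter.2 ⟨hvY, hvZ⟩))))
        by_cases hvU : v ∈ U
        · exact Or.inl (Or.inl (Or.inr hvU))
        simp only [hF] at h3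
        rw [if_neg hvU, if_neg hvZ, mem_union, mem_union] at h3
        rcases h3 with (h3 | h3) | h3
        · exact Or.inl (Or.inl (Or.inl (Or.inl (mem_filter.2 ⟨hvY, hvZ, h3⟩))))
        · left
          right
          obtain ⟨x, hx, hxb⟩ := mem_image.1 h3
          rw [mem_inter, mem_nb'] at hx
          rw [hR, mem_biUnion]
          exact ⟨x, hx.2, mem_filter.2 ⟨mem_inter.2 ⟨(mem_nb' _ _ _).2 hx.1.symm, hvY⟩, hxb⟩⟩
        · right
          exact mem_filter.2 ⟨hvY, hi _ h3⟩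
      · rw [mem_union]
        exact Or.inl (mem_filter.2 ⟨hv, mem_sdiff.2 ⟨hbK, h3⟩⟩)
    have h3 := (card_le_card h2).trans (card_union_le _ _)
    have h4 := card_union_le (((Y.filter fun v => v ∉ Z ∧ b ∈ E v) ∪ (Y ∩ Z)) ∪ U ∪ R)
      (Y.filter fun v => p v = i)
    have h5 := card_union_le (((Y.filter fun v => v ∉ Z ∧ b ∈ E v) ∪ (Y ∩ Z)) ∪ U) R
    have h6 := card_union_le ((Y.filter fun v => v ∉ Z ∧ b ∈ E v) ∪ (Y ∩ Z)) U
    have h7 := card_union_le (Y.filter fun v => v ∉ Z ∧ b ∈ E v) (Y ∩ Z)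
    show A.card ≤ 2 * (A.filter fun v => b ∈ K0 \ F v).card
    omega)
  -- facts on `f`
  have hfB : ∀ v, v ∈ Y → v ∉ U' → G.Adj u v → f v ∈ B ∧ f v ∈ K0 \ F v ∧ v ∈ A := by
    intro v hv hv' hadj
    have h1 : v ∈ A := by
      rw [hA, mem_sdiff, mem_inter, mem_nb']
      exact ⟨⟨hadj, hv⟩, hv'⟩
    exact ⟨(hf1 v h1).1, (hf1 v h1).2, h1⟩
  have hfB' : ∀ v, v ∈ Y → v ∉ U' → G.Adj u v → f v ∈ K0 ∧ f v ∉ E u ∧ f v ≠ cR u ∧ f v ≠ m u ∧
      f v ∉ us := by
    intro v hv hv' hadj
    have h1 := (hfB v hv hv' hadj).1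
    rw [hB, mem_sdiff, mem_erase, mem_erase, mem_sdiff] at h1
    exact ⟨h1.1.2.2.1, h1.1.2.2.2, h1.1.2.1, h1.1.1, h1.2⟩
  have hfF : ∀ v, v ∈ Y → v ∉ U' → G.Adj u v → f v ∉ E v ∧ (∀ x ∈ nb G v ∩ U', s x v ≠ f v) ∧
      (v ∈ U → f v ≠ cR v ∧ f v ≠ m v) ∧ (v ∉ U → v ∉ Z → f v ∉ C (p v)) := by
    intro v hv hv' hadj
    have h1 := (mem_sdiff.1 (hfB v hv hv' hadj).2.1).2
    simp only [hF] at h1
    rw [mem_union, mem_union] at h1
    push Not at h1
    obtain ⟨⟨h2, h3⟩, h4⟩ := h1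
    refine ⟨h2, fun x hx h5 => h3 (mem_image.2 ⟨x, hx, h5⟩), fun h5 => ?_, fun h5 h6 => ?_⟩
    · rw [if_pos h5, mem_insert, mem_singleton] at h4
      push Not at h4
      exact h4
    · rw [if_neg h5, if_neg h6] at h4
      exact h4
  refine ⟨fun x v => if x = u then (if v ∈ U' then s v u else f v) else s x v, ?_⟩
  have hne : ∀ x ∈ U', x ≠ u := fun x hx h => hu' (h ▸ hx)
  have e1 : ∀ v, (if u = u then (if v ∈ U' then s v u else f v) else s u v) =
      if v ∈ U' then s v u else f v := fun v => if_pos rfl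
  have e2 : ∀ x ∈ U', ∀ v, (if x = u then (if v ∈ U' then s v u else f v) else s x v) = s x v :=
    fun x hx v => if_neg (hne x hx)
  refine ⟨?_, ?_, ?_, ?_, ?_, ?_, ?_, ?_, ?_⟩
  · intro x hx v hv hadj
    show (if x = u then (if v ∈ U' then s v u else f v) else s x v) =
      (if v = u then (if x ∈ U' then s x u else f x) else s v x)
    rw [mem_insert] at hx hv
    rcases hx with rfl | hx
    · rcases hv with rfl | hv
      · exact absurd hadj (G.loopless.irrefl _)
      · rw [if_pos rfl, if_pos hv, if_neg (hne v hv)]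
    · rcases hv with rfl | hv
      · rw [if_neg (hne x hx), if_pos rfl, if_pos hx]
      · rw [if_neg (hne x hx), if_neg (hne v hv)]
        exact hs.sym x hx v hv hadj
  · intro x hx v hv hadj
    show (if x = u then (if v ∈ U' then s v u else f v) else s x v) ∈ K0
    rw [mem_insert] at hx
    rcases hx with rfl | hx
    · rw [if_pos rfl]
      split_ifs with h
      · exact hs.K v h x huY hadj.symm
      · exact (hfB' v hv h hadj).1
    · rw [if_neg (hne x hx)]
      exact hs.K x hx v hv hadj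
  · intro x hx v hv hadj
    show (if x = u then (if v ∈ U' then s v u else f v) else s x v) ∉ E x
    rw [mem_insert] at hx
    rcases hx with rfl | hx
    · rw [if_pos rfl]
      split_ifs with h
      · exact hs.E2 v h x huY hadj.symm
      · exact (hfB' v hv h hadj).2.1
    · rw [if_neg (hne x hx)]
      exact hs.E1 x hx v hv hadj
  · intro x hx v hv hadj
    show (if x = u then (if v ∈ U' then s v u else f v) else s x v) ∉ E v
    rw [mem_insert] at hx
    rcases hx with rfl | hx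
    · rw [if_pos rfl]
      split_ifs with h
      · exact hs.E1 v h x huY hadj.symm
      · exact (hfF v hv h hadj).1
    · rw [if_neg (hne x hx)]
      exact hs.E2 x hx v hv hadj
  · intro x hx v hv hadj
    show (if x = u then (if v ∈ U' then s v u else f v) else s x v) ≠ cR x ∧
      (if x = u then (if v ∈ U' then s v u else f v) else s x v) ≠ m x
    rw [mem_insert] at hx
    rcases hx with rfl | hx
    · rw [if_pos rfl]
      split_ifs with h
      · exact hs.c2 v h x huY hadj.symm hu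
      · exact ⟨(hfB' v hv h hadj).2.2.1, (hfB' v hv h hadj).2.2.2.1⟩
    · rw [if_neg (hne x hx)]
      exact hs.c1 x hx v hv hadj
  · intro x hx v hv hadj hvU
    show (if x = u then (if v ∈ U' then s v u else f v) else s x v) ≠ cR v ∧
      (if x = u then (if v ∈ U' then s v u else f v) else s x v) ≠ m v
    rw [mem_insert] at hx
    rcases hx with rfl | hx
    · rw [if_pos rfl]
      split_ifs with h
      · exact hs.c1 v h x huY hadj.symm
      · exact (hfF v hv h hadj).2.2.1 hvU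
    · rw [if_neg (hne x hx)]
      exact hs.c2 x hx v hv hadj hvU
  · intro x hx v hv hadj hvU hvZ
    show (if x = u then (if v ∈ U' then s v u else f v) else s x v) ∉ C (p v)
    rw [mem_insert] at hx
    rcases hx with rfl | hx
    · rw [if_pos rfl, if_neg fun h => hvU (hU' h)]
      exact (hfF v hv (fun h => hvU (hU' h)) hadj).2.2.2 hvU hvZ
    · rw [if_neg (hne x hx)]
      exact hs.C3 x hx v hv hadj hvU hvZ
  · intro x hx v hv w hw hvw
    have hvw' : (if x = u then (if v ∈ U' then s v u else f v) else s x v) =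
      (if x = u then (if w ∈ U' then s w u else f w) else s x w) := hvw
    rw [mem_coe, mem_inter, mem_nb'] at hv hw
    rw [mem_insert] at hx
    rcases hx with rfl | hx
    · rw [if_pos rfl, if_pos rfl] at hvw'
      by_cases h1 : v ∈ U'
      · rw [if_pos h1] at hvw'
        by_cases h2 : w ∈ U'
        · rw [if_pos h2] at hvw'
          exact hs.inj2 x huY hu' (mem_coe.2 (mem_inter.2 ⟨(mem_nb' _ _ _).2 hv.1, h1⟩))
            (mem_coe.2 (mem_inter.2 ⟨(mem_nb' _ _ _).2 hw.1, h2⟩)) hvw'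
        · rw [if_neg h2] at hvw'
          exact absurd (mem_image.2 ⟨v, mem_inter.2 ⟨(mem_nb' _ _ _).2 hv.1, h1⟩, hvw'⟩)
            (hfB' w hw.2 h2 hw.1).2.2.2.2
      · rw [if_neg h1] at hvw'
        by_cases h2 : w ∈ U'
        · rw [if_pos h2] at hvw'
          exact absurd (mem_image.2 ⟨w, mem_inter.2 ⟨(mem_nb' _ _ _).2 hw.1, h2⟩, hvw'.symm⟩)
            (hfB' v hv.2 h1 hv.1).2.2.2.2
        · rw [if_neg h2] at hvw'
          exact hf2 (mem_coe.2 (hfB v hv.2 h1 hv.1).2.2) (mem_coe.2 (hfB w hw.2 h2 hw.1).2.2) hvw'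
    · rw [if_neg (hne x hx), if_neg (hne x hx)] at hvw'
      exact hs.inj x hx (mem_coe.2 (mem_inter.2 ⟨(mem_nb' _ _ _).2 hv.1, hv.2⟩))
        (mem_coe.2 (mem_inter.2 ⟨(mem_nb' _ _ _).2 hw.1, hw.2⟩)) hvw'
  · intro v hv hvU x hx y hy hxy
    have hxy' : (if x = u then (if v ∈ U' then s v u else f v) else s x v) =
      (if y = u then (if v ∈ U' then s v u else f v) else s y v) := hxy
    rw [mem_insert] at hvU
    push Not at hvU
    rw [if_neg hvU.2] at hxy'
    rw [mem_coe, mem_inter, mem_nb', mem_insert] at hx hy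
    by_cases h1 : x = u
    · by_cases h2 : y = u
      · rw [h1, h2]
      · rw [if_pos h1, if_neg h2] at hxy'
        have hyU := hy.2.resolve_left h2
        have hadj : G.Adj u v := by
          rw [← h1]
          exact hx.1.symm
        exact absurd hxy'.symm ((hfF v hv hvU.2 hadj).2.1 y
          (mem_inter.2 ⟨(mem_nb' _ _ _).2 hy.1, hyU⟩))
    · have hxU := hx.2.resolve_left h1
      by_cases h2 : y = u
      · rw [if_neg h1, if_pos h2] at hxy'
        have hadj : G.Adj u v := by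
          rw [← h2]
          exact hy.1.symm
        exact absurd hxy' ((hfF v hv hvU.2 hadj).2.1 x
          (mem_inter.2 ⟨(mem_nb' _ _ _).2 hx.1, hxU⟩))
      · rw [if_neg h1, if_neg h2] at hxy'
        have hyU := hy.2.resolve_left h2
        exact hs.inj2 v hv hvU.2 (mem_coe.2 (mem_inter.2 ⟨(mem_nb' _ _ _).2 hx.1, hxU⟩))
          (mem_coe.2 (mem_inter.2 ⟨(mem_nb' _ _ _).2 hy.1, hyU⟩)) hxy'

/-- all steps -/
theorem steps {d a : ℕ} (hK : K0.card = d + 2)
    (hE : ∀ v ∈ Y, (E v).card + (nb G v ∩ Y).card = d)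
    (hEK : ∀ v ∈ Y, E v ⊆ K0) (hU : U ⊆ Y)
    (hcR : ∀ u ∈ U, cR u ∈ K0 ∧ cR u ∉ E u) (hm : ∀ u ∈ U, m u ∈ K0 ∧ m u ∉ E u ∧ m u ≠ cR u)
    (hC : ∀ i j, i ≠ j → Disjoint (C i) (C j))
    (n1 : ∀ u ∈ Y, a + U.card ≤ (nb G u ∩ Y).card)
    (n2 : ∀ v ∈ Y, ∀ j, 2 * ((E v).card + U.card + (C j).card + 2) ≤ a)
    (n3 : ∀ b i, 2 * ((Y.filter fun v => v ∉ Z ∧ b ∈ E v).card + (Y ∩ Z).card + U.card + U.card +
      (Y.filter fun v => p v = i).card) ≤ a) (s0 : V → V → Fin k) :
    ∃ s : V → V → Fin k, Stt G Y U Z E K0 C p cR m U s := by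
  have key : ∀ n, ∀ W ⊆ U, W.card = n → ∃ s : V → V → Fin k,
      Stt G Y U Z E K0 C p cR m W s := by
    intro n
    induction n with
    | zero =>
      intro W _ hW
      rw [card_eq_zero] at hW
      subst hW
      refine ⟨s0, ?_, ?_, ?_, ?_, ?_, ?_, ?_, ?_, ?_⟩
      · intro u hu
        exact absurd hu (notMem_empty u)
      · intro u hu
        exact absurd hu (notMem_empty u)
      · intro u hu
        exact absurd hu (notMem_empty u)
      · intro u hu
        exact absurd hu (notMem_empty u)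
      · intro u hu
        exact absurd hu (notMem_empty u)
      · intro u hu
        exact absurd hu (notMem_empty u)
      · intro u hu
        exact absurd hu (notMem_empty u)
      · intro u hu
        exact absurd hu (notMem_empty u)
      · intro v _ _ x hx
        rw [mem_coe, mem_inter] at hx
        exact absurd hx.2 (notMem_empty x)
    | succ n ih =>
      intro W hWU hW
      obtain ⟨w, hw⟩ : W.Nonempty := by
        rw [← card_pos]
        omega
      obtain ⟨s, hs⟩ := ih (W.erase w) ((erase_subset _ _).trans hWU)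
        (by rw [card_erase_of_mem hw, hW]; rfl)
      have h1 := step hK hE hEK hU hcR hm hC n1 n2 n3 ((erase_subset _ _).trans hWU) (hWU hw)
        (notMem_erase w W) hs
      rwa [insert_erase hw] at h1
  exact key _ U (Subset.refl _) rfl

/-- the number of vertices of `Y \ U` where `b` is missing -/
noncomputable def Mb (G : SimpleGraph V) (Y U : Finset V) (E : V → Finset (Fin k))
    (s : V → V → Fin k) (b : Fin k) : ℕ :=
  ((Y \ U).filter (fun v => b ∉ E v ∧ ∀ u ∈ U, G.Adj u v → s u v ≠ b)).card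

/-- **Parities.** -/
theorem par {d : ℕ} (hK : K0.card = d + 2) (hE : ∀ v ∈ Y, (E v).card + (nb G v ∩ Y).card = d)
    (hEK : ∀ v ∈ Y, E v ⊆ K0) (hU : U ⊆ Y)
    (hcR : ∀ u ∈ U, cR u ∈ K0 ∧ cR u ∉ E u) (hm : ∀ u ∈ U, m u ∈ K0 ∧ m u ∉ E u ∧ m u ≠ cR u)
    (hs : Stt G Y U Z E K0 C p cR m U s) {b : Fin k} (hb : b ∈ K0) (hbR : b ∉ U.image cR) :
    (Odd (Mb G Y U E s b) ↔
      Odd ((Y.filter fun v => b ∉ E v).card + (U.filter fun u => m u = b).card)) := by
  have hbu : ∀ u ∈ U, b ≠ cR u := fun u hu h => hbR (mem_image.2 ⟨u, hu, h.symm⟩)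
  -- every other colour occurs at `u`
  have hsur : ∀ u ∈ U, b ∉ E u → m u ≠ b → ∃ v ∈ nb G u ∩ Y, s u v = b := by
    intro u hu h1 h2
    have huY := hU hu
    have h3 : (nb G u ∩ Y).image (s u) ⊆ ((K0 \ E u).erase (cR u)).erase (m u) := by
      intro b' hb'
      obtain ⟨v, hv, rfl⟩ := mem_image.1 hb'
      rw [mem_inter, mem_nb'] at hv
      rw [mem_erase, mem_erase, mem_sdiff]
      exact ⟨(hs.c1 u hu v hv.2 hv.1).2, (hs.c1 u hu v hv.2 hv.1).1, hs.K u hu v hv.2 hv.1,
        hs.E1 u hu v hv.2 hv.1⟩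
    have h4 : ((nb G u ∩ Y).image (s u)).card = (nb G u ∩ Y).card :=
      card_image_of_injOn (hs.inj u hu)
    have h5 : m u ∈ (K0 \ E u).erase (cR u) := by
      rw [mem_erase, mem_sdiff]
      exact ⟨(hm u hu).2.2, (hm u hu).1, (hm u hu).2.1⟩
    have h6 : cR u ∈ K0 \ E u := mem_sdiff.2 (hcR u hu)
    have h7 := card_erase_add_one h5
    have h8 := card_erase_add_one h6
    have h9 := card_sdiff_add_card_eq_card (hEK u huY)
    have h10 := hE u huY
    have h11 := eq_of_subset_of_card_le h3 (by omega)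
    have h12 : b ∈ ((K0 \ E u).erase (cR u)).erase (m u) := by
      rw [mem_erase, mem_erase, mem_sdiff]
      exact ⟨fun h => h2 h.symm, hbu u hu, hb, h1⟩
    rw [← h11] at h12
    obtain ⟨v, hv, hvb⟩ := mem_image.1 h12
    exact ⟨v, hv, hvb⟩
  set W : Finset V := (Y \ U).filter fun v => b ∉ E v with hW
  set T : Finset V := (Y \ U).filter fun v => ∃ u ∈ U, G.Adj u v ∧ s u v = b with hT
  set U1 : Finset V := U.filter fun u => ∃ v ∈ Y \ U, G.Adj u v ∧ s u v = b with hU1
  set U2 : Finset V := U.filter fun u => ∃ v ∈ U, G.Adj u v ∧ s u v = b with hU2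
  have k1 : Mb G Y U E s b + T.card = W.card := by
    unfold Mb
    rw [← card_union_of_disjoint]
    · congr 1
      ext v
      rw [mem_union, hT, hW, mem_filter, mem_filter, mem_filter]
      constructor
      · rintro (h | ⟨h, u, hu, hadj, hsb⟩)
        · exact ⟨h.1, h.2.1⟩
        · refine ⟨h, ?_⟩
          rw [← hsb]
          exact hs.E2 u hu v (mem_sdiff.1 h).1 hadj
      · rintro ⟨h, h1⟩
        by_cases h2 : ∃ u ∈ U, G.Adj u v ∧ s u v = b
        · exact Or.inr ⟨h, h2⟩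
        · refine Or.inl ⟨h, h1, fun u hu hadj h3 => h2 ⟨u, hu, hadj, h3⟩⟩
    · rw [Finset.disjoint_left]
      intro v hv hv'
      rw [mem_filter] at hv
      rw [hT, mem_filter] at hv'
      obtain ⟨-, u, hu, hadj, hsb⟩ := hv'
      exact hv.2.2 u hu hadj hsb
  -- `T` and `U1`
  set R : Finset (V × V) := ((Y \ U) ×ˢ U).filter fun q => G.Adj q.2 q.1 ∧ s q.2 q.1 = b with hR
  have k2 : T.card = R.card := by
    have h1 : T = R.image Prod.fst := by
      ext v
      rw [hT, mem_filter, mem_image]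
      constructor
      · rintro ⟨h, u, hu, hadj, hsb⟩
        exact ⟨(v, u), mem_filter.2 ⟨mem_product.2 ⟨h, hu⟩, hadj, hsb⟩, rfl⟩
      · rintro ⟨⟨v', u⟩, h, rfl⟩
        rw [hR, mem_filter, mem_product] at h
        exact ⟨h.1.1, u, h.1.2, h.2⟩
    rw [h1]
    refine card_image_of_injOn ?_
    rintro ⟨v, u⟩ hv ⟨v', u'⟩ hv' h
    rw [mem_coe, hR, mem_filter, mem_product] at hv hv'
    simp only at hv hv' h
    subst h
    have hvY := mem_sdiff.1 hv.1.1
    have := hs.inj2 v hvY.1 hvY.2 (mem_coe.2 (mem_inter.2 ⟨(mem_nb' _ _ _).2 hv.2.1.symm, hv.1.2⟩))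
      (mem_coe.2 (mem_inter.2 ⟨(mem_nb' _ _ _).2 hv'.2.1.symm, hv'.1.2⟩))
      (show s u v = s u' v by rw [hv.2.2, hv'.2.2])
    rw [this]
  have k3 : U1.card = R.card := by
    have h1 : U1 = R.image Prod.snd := by
      ext u
      rw [hU1, mem_filter, mem_image]
      constructor
      · rintro ⟨hu, v, h, hadj, hsb⟩
        exact ⟨(v, u), mem_filter.2 ⟨mem_product.2 ⟨h, hu⟩, hadj, hsb⟩, rfl⟩
      · rintro ⟨⟨v, u'⟩, h, rfl⟩
        rw [hR, mem_filter, mem_product] at h
        exact ⟨h.1.2, v, h.1.1, h.2⟩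
    rw [h1]
    refine card_image_of_injOn ?_
    rintro ⟨v, u⟩ hv ⟨v', u'⟩ hv' h
    rw [mem_coe, hR, mem_filter, mem_product] at hv hv'
    simp only at hv hv' h
    subst h
    have := hs.inj u hv.1.2 (mem_coe.2 (mem_inter.2 ⟨(mem_nb' _ _ _).2 hv.2.1,
        (mem_sdiff.1 hv.1.1).1⟩))
      (mem_coe.2 (mem_inter.2 ⟨(mem_nb' _ _ _).2 hv'.2.1, (mem_sdiff.1 hv'.1.1).1⟩))
      (show s u v = s u v' by rw [hv.2.2, hv'.2.2])
    rw [this]
  -- `U2` is even
  have k4 : Even U2.card := by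
    have hch : ∀ u ∈ U2, ∃ v ∈ U, G.Adj u v ∧ s u v = b := fun u hu => (mem_filter.1 hu).2
    choose! q hq using hch
    have huniq : ∀ u ∈ U2, ∀ v ∈ U, G.Adj u v → s u v = b → v = q u := by
      intro u hu v hv hadj hsb
      obtain ⟨h1, h2, h3⟩ := hq u hu
      exact hs.inj u (mem_filter.1 hu).1 (mem_coe.2 (mem_inter.2 ⟨(mem_nb' _ _ _).2 hadj, hU hv⟩))
        (mem_coe.2 (mem_inter.2 ⟨(mem_nb' _ _ _).2 h2, hU h1⟩)) (by rw [hsb, h3])
    have hmem : ∀ u ∈ U2, q u ∈ U2 := by
      intro u hu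
      obtain ⟨h1, h2, h3⟩ := hq u hu
      rw [hU2, mem_filter]
      refine ⟨h1, u, (mem_filter.1 hu).1, h2.symm, ?_⟩
      rw [hs.sym (q u) h1 u (mem_filter.1 hu).1 h2.symm]
      exact h3
    have hsum : ∑ u ∈ U2, (1 : ZMod 2) = 0 := by
      refine Finset.sum_involution (fun u _ => q u) (fun _ _ => by decide) (fun u hu _ h => ?_)
        (fun u hu => hmem u hu) (fun u hu => ?_)
      · have := (hq u hu).2.1
        rw [h] at this
        exact G.loopless.irrefl _ this
      · obtain ⟨h1, h2, h3⟩ := hq u hu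
        have h4 := huniq (q u) (hmem u hu) u (mem_filter.1 hu).1 h2.symm (by
          rw [hs.sym (q u) h1 u (mem_filter.1 hu).1 h2.symm]
          exact h3)
        exact h4.symm
    rw [sum_const, nsmul_eq_mul, mul_one] at hsum
    rwa [ZMod.natCast_eq_zero_iff_even] at hsum
  -- the vertices of `U`
  have k5 : (U.filter fun u => b ∉ E u).card =
      U1.card + U2.card + (U.filter fun u => m u = b).card := by
    rw [← card_union_of_disjoint, ← card_union_of_disjoint]
    · congr 1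
      ext u
      rw [mem_union, mem_union, hU1, hU2, mem_filter, mem_filter, mem_filter, mem_filter]
      constructor
      · rintro ⟨hu, h1⟩
        by_cases h2 : m u = b
        · exact Or.inr ⟨hu, h2⟩
        · left
          obtain ⟨v, hv, hvb⟩ := hsur u hu h1 h2
          rw [mem_inter, mem_nb'] at hv
          by_cases h3 : v ∈ U
          · exact Or.inr ⟨hu, v, h3, hv.1, hvb⟩
          · exact Or.inl ⟨hu, v, mem_sdiff.2 ⟨hv.2, h3⟩, hv.1, hvb⟩
      · rintro ((⟨hu, v, hv, hadj, hsb⟩ | ⟨hu, v, hv, hadj, hsb⟩) | ⟨hu, h1⟩)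
        · refine ⟨hu, ?_⟩
          rw [← hsb]
          exact hs.E1 u hu v (mem_sdiff.1 hv).1 hadj
        · refine ⟨hu, ?_⟩
          rw [← hsb]
          exact hs.E1 u hu v (hU hv) hadj
        · refine ⟨hu, ?_⟩
          rw [← h1]
          exact (hm u hu).2.1
    · rw [Finset.disjoint_left]
      intro u hu hu'
      rw [mem_filter] at hu'
      rw [mem_union, hU1, hU2, mem_filter, mem_filter] at hu
      rcases hu with ⟨hu, v, hv, hadj, hsb⟩ | ⟨hu, v, hv, hadj, hsb⟩
      · exact (hs.c1 u hu v (mem_sdiff.1 hv).1 hadj).2 (by rw [hsb, hu'.2])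
      · exact (hs.c1 u hu v (hU hv) hadj).2 (by rw [hsb, hu'.2])
    · rw [Finset.disjoint_left]
      intro u hu hu'
      rw [hU1, mem_filter] at hu
      rw [hU2, mem_filter] at hu'
      obtain ⟨hu1, v, hv, hadj, hsb⟩ := hu
      obtain ⟨-, w, hw, hadj', hsb'⟩ := hu'
      have := hs.inj u hu1 (mem_coe.2 (mem_inter.2 ⟨(mem_nb' _ _ _).2 hadj,
          (mem_sdiff.1 hv).1⟩))
        (mem_coe.2 (mem_inter.2 ⟨(mem_nb' _ _ _).2 hadj', hU hw⟩)) (by rw [hsb, hsb'])
      rw [this] at hv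
      exact (mem_sdiff.1 hv).2 hw
  have k6 : (Y.filter fun v => b ∉ E v).card = W.card + (U.filter fun u => b ∉ E u).card := by
    rw [← card_union_of_disjoint]
    · congr 1
      ext v
      rw [mem_union, hW, mem_filter, mem_filter, mem_filter, mem_sdiff]
      constructor
      · rintro ⟨h1, h2⟩
        by_cases h3 : v ∈ U
        · exact Or.inr ⟨h3, h2⟩
        · exact Or.inl ⟨⟨h1, h3⟩, h2⟩
      · rintro (h | h)
        · exact ⟨h.1.1, h.2⟩
        · exact ⟨hU h.1, h.2⟩
    · rw [Finset.disjoint_left]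
      intro v hv hv'
      rw [hW, mem_filter, mem_sdiff] at hv
      exact hv.1.2 (mem_filter.1 hv').1
  obtain ⟨r, hr⟩ := k4
  rw [k6, k5, ← k1, k2, k3, hr]
  rw [show Mb G Y U E s b + R.card + (R.card + (r + r) + (U.filter fun u => m u = b).card) +
    (U.filter fun u => m u = b).card = Mb G Y U E s b + 2 * (R.card + r +
      (U.filter fun u => m u = b).card) by ring]
  constructor
  · intro h
    exact h.add_even (even_two_mul _)
  · intro h
    rw [Nat.odd_add] at h
    exact h.2 (even_two_mul _)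

end Pool.Agent.Work.MP_db9399_kr.helper75
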