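import Pool.Agent.Work.MP_db9399_kr.Interface

/-!
# MP_db9399, KR, block STAR (helper75)
-/

set_option autoImplicit false
set_option linter.unusedSectionVars false

namespace Pool.Agent.Work.MP_db9399_kr.helper75

open Finset Classical
open Pool.Agent.Work.MP_db9399_kr

universe u

/-- STAR, for `D` nonempty -/
theorem star {V : Type u} {D : Type} [DecidableEq D] [Nonempty D] (A : Finset V) (B : Finset D)
    (L : V → Finset D) (hAB : A.card = B.card) (h1 : ∀ y ∈ A, B.card ≤ 2 * (B ∩ L y).card)
    (h2 : ∀ b ∈ B, A.card ≤ 2 * (A.filter (fun y => b ∈ L y)).card) :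
    ∃ f : V → D, (∀ y ∈ A, f y ∈ B ∧ f y ∈ L y) ∧ Set.InjOn f A := by
  have hall : ∀ S : Finset {y // y ∈ A}, S.card ≤ (S.biUnion fun y => B ∩ L y.1).card := by
    intro S
    by_contra hcon
    push Not at hcon
    have hSA : S.card ≤ A.card := by
      have := S.card_le_univ
      rwa [Fintype.card_coe] at this
    have hsub : (S.biUnion fun y => B ∩ L y.1) ⊆ B := by
      intro b hb
      rw [mem_biUnion] at hb
      obtain ⟨y, -, hy⟩ := hb
      exact (mem_inter.1 hy).1
    obtain ⟨b, hb, hbn⟩ : ∃ b ∈ B, b ∉ (S.biUnion fun y => B ∩ L y.1) := by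
      by_contra h
      push Not at h
      have : B ⊆ (S.biUnion fun y => B ∩ L y.1) := h
      have := card_le_card this
      omega
    have h3 := h2 b hb
    -- the vertices of `S` do not allow `b`
    have h4 : (A.filter fun y => b ∈ L y).card + S.card ≤ A.card := by
      have h5 : Disjoint (A.filter fun y => b ∈ L y) (S.image fun y => y.1) := by
        rw [Finset.disjoint_left]
        intro y hy hy'
        rw [mem_image] at hy'
        obtain ⟨z, hz, rfl⟩ := hy'
        exact hbn (mem_biUnion.2 ⟨z, hz, mem_inter.2 ⟨hb, (mem_filter.1 hy).2⟩⟩)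
      have h6 : (A.filter fun y => b ∈ L y) ∪ (S.image fun y => y.1) ⊆ A := by
        intro y hy
        rw [mem_union] at hy
        rcases hy with hy | hy
        · exact (mem_filter.1 hy).1
        · obtain ⟨z, -, rfl⟩ := mem_image.1 hy
          exact z.2
      have h7 := card_le_card h6
      rw [card_union_of_disjoint h5, card_image_of_injective _ Subtype.val_injective] at h7
      exact h7
    have h5 : 0 < S.card := by omega
    obtain ⟨y, hy⟩ := card_pos.1 h5
    have h6 := h1 y.1 y.2
    have h7 : (B ∩ L y.1).card ≤ (S.biUnion fun y => B ∩ L y.1).card :=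
      card_le_card (subset_biUnion_of_mem (fun y : {y // y ∈ A} => B ∩ L y.1) hy)
    omega
  obtain ⟨f, hf1, hf2⟩ := (all_card_le_biUnion_card_iff_exists_injective
    (fun y : {y // y ∈ A} => B ∩ L y.1)).1 hall
  refine ⟨fun y => if h : y ∈ A then f ⟨y, h⟩ else Classical.arbitrary D, fun y hy => ?_, ?_⟩
  · simp only [dif_pos hy]
    exact mem_inter.1 (hf2 ⟨y, hy⟩)
  · intro y hy y' hy' h
    simp only at h
    rw [dif_pos (mem_coe.1 hy), dif_pos (mem_coe.1 hy')] at h
    exact congrArg Subtype.val (hf1 h)

/-- distinct representatives, one after the other -/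
theorem pick {V : Type u} {D : Type} [DecidableEq D] [Nonempty D] (U : Finset V) (L : V → Finset D)
    (h : ∀ u ∈ U, U.card ≤ (L u).card) :
    ∃ m : V → D, (∀ u ∈ U, m u ∈ L u) ∧ Set.InjOn m U := by
  have key : ∀ n, ∀ W ⊆ U, W.card = n → ∃ m : V → D, (∀ u ∈ W, m u ∈ L u) ∧ Set.InjOn m W := by
    intro n
    induction n with
    | zero =>
      intro W _ hW
      rw [card_eq_zero] at hW
      subst hW
      exact ⟨fun _ => Classical.arbitrary D, fun u hu => absurd hu (notMem_empty u), by simp⟩
    | succ n ih =>
      intro W hWU hW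
      obtain ⟨w, hw⟩ : W.Nonempty := by
        rw [← card_pos]
        omega
      obtain ⟨m, h1, h2⟩ := ih (W.erase w) ((erase_subset _ _).trans hWU)
        (by rw [card_erase_of_mem hw, hW]; rfl)
      have h3 := h w (hWU hw)
      have h4 := card_le_card hWU
      obtain ⟨b, hb, hbn⟩ : ∃ b ∈ L w, b ∉ (W.erase w).image m := by
        by_contra hcon
        push Not at hcon
        have h5 : L w ⊆ (W.erase w).image m := hcon
        have h6 := (card_le_card h5).trans card_image_le
        rw [card_erase_of_mem hw] at h6
        omega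
      refine ⟨Function.update m w b, fun u hu => ?_, ?_⟩
      · by_cases hu' : u = w
        · rw [hu', Function.update_self]
          exact hb
        · rw [Function.update_of_ne hu']
          exact h1 u (mem_erase.2 ⟨hu', hu⟩)
      · intro u hu v hv huv
        rw [mem_coe] at hu hv
        by_cases hu' : u = w
        · by_cases hv' : v = w
          · rw [hu', hv']
          · exfalso
            rw [hu', Function.update_self, Function.update_of_ne hv'] at huv
            exact hbn (mem_image.2 ⟨v, mem_erase.2 ⟨hv', hv⟩, huv.symm⟩)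
        · by_cases hv' : v = w
          · exfalso
            rw [hv', Function.update_self, Function.update_of_ne hu'] at huv
            exact hbn (mem_image.2 ⟨u, mem_erase.2 ⟨hu', hu⟩, huv⟩)
          · rw [Function.update_of_ne hu', Function.update_of_ne hv'] at huv
            exact h2 (mem_coe.2 (mem_erase.2 ⟨hu', hu⟩)) (mem_coe.2 (mem_erase.2 ⟨hv', hv⟩)) huv
  exact key _ U (Subset.refl _) rfl

end Pool.Agent.Work.MP_db9399_kr.helper75
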